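import Pool.Agent.H20.ER3.Lib

/-!
# MP_816b90_co: Operation C, row D7: the prism in `R` except for an interval of a rung
-/

set_option autoImplicit false

open Pool.Agent.H48.ER Pool.Agent.H52.ER2 Pool.Agent.H66.ER2 Pool.Agent.H20.ER3

namespace Pool.Agent.H86.ER3

theorem pf_D7 (hD3 : U_D3) (hD4 : U_D4) (hD5 : U_D5) (hD6 : U_D6) (hGB : U_GB) (hPP : U_PP) :
    U_D7 := by
  intro V G R S p q n g k l hCls hEv hEP hStar hPM hp hq hEvc hPI hodd hkl hln hk hl hall
  by_cases h2 : k + 2 ≤ l
  · exact hD6 V G R S p q n g k l hEv hEP hStar hPM hp hq hEvc hPI hodd h2 hln hk hl hall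
  have hkn : k ≤ n 0 := le_trans hkl hln
  -- no roots on the prism
  have hrt : rt (vI n g) = ∅ := by
    apply Set.eq_empty_iff_forall_notMem.2
    rintro F ⟨i, x, hx, hF⟩
    by_cases hc : i = 0 ∧ k ≤ x ∧ x ≤ l
    · obtain ⟨rfl, hkx, hxl⟩ := hc
      have hxkl : x = k ∨ x = l := by omega
      rcases hxkl with rfl | rfl
      · by_cases hx0 : x = 0
        · subst hx0
          have h1 : InR R (g 1 0) := hall 1 0 (Nat.zero_le _) (fun h => absurd h.1 (by decide))
          have ha : (MG (ctr G p q) R).Adj (g 0 0) (g 1 0) :=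
            (hPI.adj 0 1 0 0 (Nat.zero_le _) (Nat.zero_le _)).2
              (Or.inr ⟨by decide, Or.inl ⟨rfl, rfl⟩⟩)
          rw [hF] at ha
          exact root_not_inR h1 ha
        · have h1 : InR R (g 0 (x - 1)) := hall 0 (x - 1) (by omega) (fun h => by
            have := h.2.1
            omega)
          have ha : (MG (ctr G p q) R).Adj (g 0 x) (g 0 (x - 1)) :=
            (hPI.adj 0 0 x (x - 1) hx (by omega)).2 (Or.inl ⟨rfl, Or.inr (by omega)⟩)
          rw [hF] at ha
          exact root_not_inR h1 ha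
      · by_cases hxn : x = n 0
        · have h1 : InR R (g 1 (n 1)) := hall 1 (n 1) le_rfl (fun h => absurd h.1 (by decide))
          have ha : (MG (ctr G p q) R).Adj (g 0 x) (g 1 (n 1)) :=
            (hPI.adj 0 1 x (n 1) hx le_rfl).2
              (Or.inr ⟨by decide, Or.inr ⟨hxn, rfl⟩⟩)
          rw [hF] at ha
          exact root_not_inR h1 ha
        · have h1 : InR R (g 0 (x + 1)) := hall 0 (x + 1) (by omega) (fun h => by
            have := h.2.2
            omega)
          have ha : (MG (ctr G p q) R).Adj (g 0 x) (g 0 (x + 1)) :=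
            (hPI.adj 0 0 x (x + 1) hx (by omega)).2 (Or.inl ⟨rfl, Or.inl rfl⟩)
          rw [hF] at ha
          exact root_not_inR h1 ha
    · have h1 := hall i x hx hc
      rw [hF] at h1
      exact not_inR_root h1
  obtain ⟨g', hPI', hg'⟩ := (hGB V (ctr G p q) R n).2 g hPI hrt
  have hin : ∀ i x, x ≤ n i → ¬ (i = 0 ∧ k ≤ x ∧ x ≤ l) → g' i x ∈ R := by
    intro i x hx hc
    have h1 := hall i x hx hc
    rw [hg' i x hx] at h1
    exact InR.inl_iff.1 h1
  have hk' : g' 0 k ∉ R := by
    intro h
    apply hk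
    rw [hg' 0 k hkn]
    exact InR.inl_iff.2 h
  have hl' : g' 0 l ∉ R := by
    intro h
    apply hl
    rw [hg' 0 l hln]
    exact InR.inl_iff.2 h
  by_cases hlk : l = k
  · subst hlk
    by_cases hn : l = n 0
    · exact hD4 V G R S p q n g' hCls.noh hCls.nop hEP hStar hPM hp hq hPI' hodd
        (by rw [← hn]; exact hl')
        (fun i x hx hc => hin i x hx (fun h => hc ⟨h.1, by omega⟩))
    · by_cases h0 : l = 0
      · subst h0
        have hPI2 := (hPP V (ctr G p q) n g' hPI').2.1
        refine hD4 V G R S p q n (fun i k => g' i (n i - k)) hCls.noh hCls.nop hEP hStar hPM hp hq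
          hPI2 hodd ?_ ?_
        · simpa using hl'
        · intro i x hx hc
          refine hin i (n i - x) (Nat.sub_le _ _) (fun h => hc ⟨h.1, ?_⟩)
          obtain ⟨rfl, -, h3⟩ := h
          omega
      · exact hD3 V G R S p q n g' l hCls.nop hEP hStar hPM hp hq hPI' hodd (by omega) (by omega)
          hl' (fun i x hx hc => hin i x hx (fun h => hc ⟨h.1, by omega⟩))
  · have hl1 : l = k + 1 := by omega
    subst hl1
    exact hD5 V G R p q n g' k hCls.nop hEv hEP hp hq hPI' hodd (by omega) hk' hl'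
      (fun i x hx hc => hin i x hx (fun h => hc ⟨h.1, by omega⟩))

end Pool.Agent.H86.ER3
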