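import Pool.Agent.H20.ER3.Lib

/-!
# MP_816b90_co: Operation C, row L1: the class is closed under Operation C
-/

set_option autoImplicit false

open Pool.Agent.H48.ER Pool.Agent.H52.ER2 Pool.Agent.H66.ER2 Pool.Agent.H20.ER3

namespace Pool.Agent.H86.ER3

/-- the vertices of Operation C -/
theorem al_oc {V : Type} (G : SimpleGraph V) (R : Set V) :
    Al False G R {x | ∀ r ∈ R, x ≠ Sum.inl r} :=
  ⟨fun _ _ r hr hrZ => absurd rfl (hrZ r hr), fun h => h.elim⟩

/-- a prism of the restricted graph is a prism of the graph, and its vertices are in the set -/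
theorem pi_of_res {W : Type} {M : SimpleGraph W} {Z : Set W} {n : Fin 3 → ℕ}
    {g : Fin 3 → ℕ → W} (h : PI (res M Z) n g) : PI M n g ∧ vI n g ⊆ Z := by
  have hZ : ∀ i k, k ≤ n i → g i k ∈ Z := by
    intro i k hk
    have hpos := h.pos i
    by_cases h0 : k = 0
    · subst h0
      exact ((h.adj i i 0 1 hk hpos).2 (Or.inl ⟨rfl, Or.inl rfl⟩)).1
    · exact ((h.adj i i k (k - 1) hk (by omega)).2 (Or.inl ⟨rfl, Or.inr (by omega)⟩)).1
  refine ⟨⟨h.pos, h.inj, ?_⟩, ?_⟩
  · intro i j k l hk hl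
    rw [← h.adj i j k l hk hl]
    exact ⟨fun e => ⟨hZ i k hk, hZ j l hl, e⟩, fun e => e.2.2⟩
  · rintro v ⟨i, k, hk, rfl⟩
    exact hZ i k hk

theorem pf_L1 (hHM : U_HM) (hQM : U_QM) (hAM : U_AM) (hSE : U_SE) (hSX : U_SX) (hAA : U_AA)
    (hPA : U_PA) : U_L1 := by
  intro V _ G R S hCls hCn hEv hAs hStar
  have hEvS : EvS G S := hSE V G R S hCls.noh hCn hEv hStar
  have hH1 : HMs True G S := hHM V True G S hCls.noh hEvS (fun h => absurd trivial h)
  have hP1 : PMs True G S := hQM V True G S hCls.noh hCls.nop hEvS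
    (fun h => absurd trivial h) hH1
  have hA1 : AMs True G S := hAM V True G S hCls hEvS (fun h => absurd trivial h) hH1 hP1
  have hX : X7 G R := hSX V G R S hStar hA1
  have hH : HMs False G R := hHM V False G R hCls.noh hEv (fun _ => hAs)
  have hP : PMs False G R := hQM V False G R hCls.noh hCls.nop hEv (fun _ => ⟨hAs, hX⟩) hH
  have hA : AMs False G R := hAM V False G R hCls hEv (fun _ => hX) hH hP
  refine ⟨noh_res hH (al_oc G R), ?_, ?_⟩
  · intro a b n P hPr hodd
    obtain ⟨g, hPI, -, -, -⟩ := hPA _ _ a b n P hPr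
    obtain ⟨h1, h2⟩ := pi_of_res hPI
    exact hP n g h1 ((al_oc G R).mono h2) hodd
  · exact (hAA _ _).2 (fun N w hN h => hA N w hN h (fun hf => hf.elim))

end Pool.Agent.H86.ER3
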